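import Mathlib

set_option autoImplicit false

namespace Pool.Agent.Results.MP_43f217_an.NotClosed

open Filter Topology

variable {X : Type}

/-- the formal operator in the scalar case with `W = 0` -/
noncomputable def M (b : X → X → ℝ) (μ : X → ℝ) (f : X → ℂ) (x : X) : ℂ :=
  (1 / (μ x : ℂ)) * ∑' y, (b x y : ℂ) * (f x - f y)

/-- membership in `ℓ²(X, μ)` -/
def L2 (μ : X → ℝ) (f : X → ℂ) : Prop := Summable fun x => ‖f x‖ ^ 2 * μ x

/-- the domain of the maximal operator -/
def Dom (b : X → X → ℝ) (μ : X → ℝ) (f : X → ℂ) : Prop :=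
  (∀ x, Summable fun y => b x y * ‖f y‖) ∧ L2 μ f ∧ L2 μ (M b μ f)

/-- closedness of the maximal operator -/
def Closed (b : X → X → ℝ) (μ : X → ℝ) : Prop :=
  ∀ (u : ℕ → X → ℂ) (f g : X → ℂ), (∀ k, Dom b μ (u k)) → L2 μ f → L2 μ g →
    Tendsto (fun k => ∑' x, ‖u k x - f x‖ ^ 2 * μ x) atTop (𝓝 0) →
    Tendsto (fun k => ∑' x, ‖M b μ (u k) x - g x‖ ^ 2 * μ x) atTop (𝓝 0) →
    Dom b μ f ∧ M b μ f = g

/-- a star of rays -/
noncomputable def bb : Option (ℕ × ℕ) → Option (ℕ × ℕ) → ℝ
  | none, none => 0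
  | none, some p => if p.2 = 0 then (1 / 2) ^ p.1 else 0
  | some p, none => if p.2 = 0 then (1 / 2) ^ p.1 else 0
  | some p, some q => if p.1 = q.1 ∧ (p.2 + 1 = q.2 ∨ q.2 + 1 = p.2) then 1 else 0

/-- the weight -/
noncomputable def mu : Option (ℕ × ℕ) → ℝ
  | none => 1
  | some p => (1 / 2) ^ p.1 * (1 / 2) ^ p.2 / (2 ^ p.1 + p.2) ^ 2

/-- harmonic functions on the rays -/
noncomputable def uu (k : ℕ) : Option (ℕ × ℕ) → ℂ
  | none => 0
  | some p => if p.1 = k then 2 ^ k + p.2 else 0

lemma fin (p : ℕ × ℕ) (y : Option (ℕ × ℕ))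
    (h : y ∉ ({none, some (p.1, p.2 + 1), some (p.1, p.2 - 1)} : Finset _)) :
    bb (some p) y = 0 := by
  rcases y with _ | q
  · simp at h
  · simp only [Finset.mem_insert, Finset.mem_singleton, Option.some.injEq, Prod.ext_iff,
      reduceCtorEq, false_or] at h
    exact if_neg (by omega)

lemma one (k : ℕ) (y : Option (ℕ × ℕ)) (h : y ≠ some (k, 0)) : bb none y = 0 ∨ uu k y = 0 := by
  rcases y with _ | q
  · exact Or.inl rfl
  · simp only [ne_eq, Option.some.injEq, Prod.ext_iff] at h
    by_cases h1 : q.2 = 0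
    · exact Or.inr (if_neg (by omega))
    · exact Or.inl (if_neg h1)

lemma Muu (k : ℕ) : M bb mu (uu k) = fun x => if x = none then -1 else 0 := by
  funext x
  rcases x with _ | ⟨i, j⟩
  · rw [M, tsum_eq_single (some (k, 0)) fun y hy => by
      rcases one k y hy with h | h
      · simp [h]
      · rw [h]; simp [uu]]
    simp [bb, mu, uu]
  · rw [M, tsum_eq_sum (fun y hy => by rw [fin _ y hy]; simp)]
    rcases j with _ | j
    · rw [Finset.sum_insert (by simp), Finset.sum_pair (by simp)]
      by_cases h : i = k <;> simp [bb, uu, h]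
    · rw [Finset.sum_insert (by simp), Finset.sum_pair (by simp; omega)]
      by_cases h : i = k <;> simp [bb, uu, h]

lemma nrm (k : ℕ) : HasSum (fun x => ‖uu k x‖ ^ 2 * mu x) ((1 / 2) ^ k * 2) := by
  have hi : Function.Injective fun j : ℕ => some (k, j) := fun a b h => by simpa using h
  refine (hi.hasSum_iff fun x hx => ?_).1 ?_
  · rcases x with _ | ⟨i, j⟩
    · simp [uu]
    · have : i ≠ k := fun h => hx ⟨j, by rw [h]⟩
      simp [uu, this]
  · refine (hasSum_geometric_two.mul_left ((1 / 2 : ℝ) ^ k)).congr_fun fun j => ?_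
    have : ‖(2 : ℂ) ^ k + j‖ = 2 ^ k + j := by
      have h := Complex.norm_natCast (2 ^ k + j)
      push_cast at h; exact h
    simp only [Function.comp, uu, mu, if_true, this]
    field_simp

theorem result : ∃ (X : Type) (_ : Countable X) (b : X → X → ℝ) (μ : X → ℝ),
    (∀ x y, 0 ≤ b x y) ∧ (∀ x y, b x y = b y x) ∧ (∀ x, b x x = 0) ∧ (∀ x, Summable (b x)) ∧
      (∀ x, 0 < μ x) ∧ ¬ Closed b μ := by
  refine ⟨_, inferInstance, bb, mu, ?_, ?_, ?_, ?_, ?_, fun H => ?_⟩
  · rintro (_ | p) (_ | q) <;> simp only [bb, le_refl] <;> split_ifs <;> positivity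
  · rintro (_ | p) (_ | q) <;> simp only [bb, eq_comm, or_comm]
  · rintro (_ | p) <;> simp [bb]
  · rintro (_ | p)
    · have hi : Function.Injective fun j : ℕ => some (j, 0) := fun a b h => by simpa using h
      refine (hi.summable_iff fun x hx => ?_).1 (by simpa [Function.comp_def, bb] using
        summable_geometric_two)
      rcases x with _ | ⟨i, j⟩
      · rfl
      · exact if_neg fun h : j = 0 => hx ⟨i, by rw [h]⟩
    · exact summable_of_ne_finset_zero (fin p)
  · rintro (_ | p) <;> simp only [mu] <;> positivity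
  have hg : L2 mu fun x => if x = none then -1 else 0 :=
    (hasSum_single none fun x hx => by simp [hx]).summable
  have h := (H uu 0 _ (fun k => ⟨?_, (nrm k).summable, Muu k ▸ hg⟩) (by simp [L2]) hg ?_
    (by simp [Muu])).2
  · simpa [M] using congrFun h none
  · rintro (_ | p)
    · exact (hasSum_single (some (k, 0)) fun y hy => by
        rcases one k y hy with h | h <;> simp [h]).summable
    · exact summable_of_ne_finset_zero fun y hy => by rw [fin p y hy, zero_mul]
  · simp only [Pi.zero_apply, sub_zero, (nrm _).tsum_eq]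
    simpa using (tendsto_pow_atTop_nhds_zero_of_lt_one (r := (1 / 2 : ℝ)) (by norm_num)
      (by norm_num)).mul_const 2

end Pool.Agent.Results.MP_43f217_an.NotClosed
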